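import Pool.Agent.R341.Uni11

set_option autoImplicit false

/-!
# Weakly admissible sequences: `t` may be periodic
-/

namespace Pool.Agent.U133.UB

open Pool.Agent.R341.Uni Filter Topology

/-- weakly admissible sequences: the tails after a `1` are admissible, the other ones may be equal
to `t` -/
def WA (t : ℕ → Bool) : Prop := t 0 = false ∧ t 1 = true ∧
  ∀ m, 1 ≤ m → Kp t (sh m t) ∨ (t m = false ∧ ∀ i, t (m + i) = t i)

lemma kp_first {t : ℕ → Bool} (h0 : t 0 = false) {o : ℕ} (h : Kp t (sh o t)) :
    ∃ k, 1 ≤ k ∧ (∀ i < k, xor (t (o + i)) (t o) = t i) ∧ xor (t (o + k)) (t o) = false ∧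
      t k = true ∧ (∀ j, Dif t o j → k ≤ j) := by
  obtain ⟨k, h1, h2, h3⟩ := h
  simp only [sh_apply, add_zero] at h1 h2
  refine ⟨k, ?_, h1, h2, h3, fun j hj => ?_⟩
  · rcases Nat.eq_zero_or_pos k with rfl | h0'
    · rw [h0] at h3; exact absurd h3 (by decide)
    · exact h0'
  · by_contra hlt
    exact hj (h1 j (by omega))

lemma WA.kp {t : ℕ → Bool} (h : WA t) {o : ℕ} (ho : 1 ≤ o) (hto : t o = true) : Kp t (sh o t) := by
  rcases h.2.2 o ho with h1 | h1
  · exact h1
  · rw [hto] at h1; exact absurd h1.1 (by decide)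

lemma WA.inf {t : ℕ → Bool} (h : WA t) (m : ℕ) : ∃ n, m ≤ n ∧ t n = true := by
  by_contra hc
  push Not at hc
  have hc' : ∀ n, m ≤ n → t n = false := fun n hn => by simpa using hc n hn
  classical
  let S := (Finset.range m).filter fun n => t n = true
  have hS : S.Nonempty := by
    refine ⟨1, ?_⟩
    simp only [S, Finset.mem_filter, Finset.mem_range]
    refine ⟨?_, h.2.1⟩
    by_contra hlt
    have := hc' 1 (by omega)
    rw [h.2.1] at this
    exact absurd this (by decide)
  obtain ⟨n, hn, hmax⟩ := S.exists_max_image id hS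
  simp only [S, Finset.mem_filter, Finset.mem_range, id] at hn hmax
  have hn1 : 1 ≤ n := by
    rcases Nat.eq_zero_or_pos n with rfl | h0
    · rw [h.1] at hn; exact absurd hn.2 (by decide)
    · exact h0
  obtain ⟨j, hj0, hj1, hj2, hj3, _⟩ := kp_first h.1 (h.kp hn1 hn.2)
  have : t (n + j) = false := by
    by_contra hcc
    have h5 : t (n + j) = true := by simpa using hcc
    rcases Nat.lt_or_ge (n + j) m with h6 | h6
    · have := hmax (n + j) ⟨h6, h5⟩; omega
    · rw [hc' _ h6] at h5; exact absurd h5 (by decide)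
  simp [this, hn.2] at hj2

/-- arbitrarily large good indices -/
lemma WA.exists_good {t : ℕ → Bool} (h : WA t) (B : ℕ) : ∃ n, B ≤ n ∧ Good t n := by
  classical
  obtain ⟨b, hb1, hb2⟩ := h.inf (B + 1)
  -- first differences
  have hf : ∀ o, 1 ≤ o → t o = true → ∃ k, 1 ≤ k ∧ (∀ i < k, xor (t (o + i)) (t o) = t i) ∧
      xor (t (o + k)) (t o) = false ∧ t k = true ∧ (∀ j, Dif t o j → k ≤ j) :=
    fun o ho hto => kp_first h.1 (h.kp ho hto)
  choose! κ hκ0 hκ1 hκ2 hκ3 hκ4 using hf
  let S := (Finset.range (b + 1)).filter fun o => 1 ≤ o ∧ t o = true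
  have hbS : b ∈ S := by
    simp only [S, Finset.mem_filter, Finset.mem_range]; exact ⟨by omega, by omega, hb2⟩
  obtain ⟨o, hoS, hmax⟩ := S.exists_max_image (fun o => o + κ o) ⟨b, hbS⟩
  simp only [S, Finset.mem_filter, Finset.mem_range] at hoS hmax
  obtain ⟨hob, ho1, ho2⟩ := hoS
  have hk0 := hκ0 o ho1 ho2
  have hN : t (o + κ o) = true := by
    have := hκ2 o ho1 ho2
    rw [ho2] at this
    simpa using this
  refine ⟨o + κ o, ?_, hN, ?_⟩
  · have := hmax b ⟨by omega, by omega, hb2⟩
    omega
  · intro o' ho1' ho2' ho3'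
    refine ⟨κ o', ?_, ?_⟩
    · rcases Nat.lt_or_ge o' (b + 1) with h5 | h5
      · have := hmax o' ⟨h5, ho1', ho3'⟩
        omega
      · by_contra hlt
        push Not at hlt
        -- agreement at `o'` up to `r`
        obtain ⟨m, rfl⟩ : ∃ m, o' = o + m := ⟨o' - o, by omega⟩
        have hm : 1 ≤ m := by omega
        obtain ⟨r, hr⟩ : ∃ r, κ o = m + r := ⟨κ o - m, by omega⟩
        have hr1 : 1 ≤ r := by omega
        have hr2 : r < κ (o + m) := by omega
        have e1 : ∀ i ≤ r, (!t (o + m + i)) = t i := fun i hi => by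
          have := hκ1 (o + m) ho1' ho3' i (by omega)
          rw [ho3'] at this
          simpa using this
        have e2 : ∀ i < r, (!t (o + m + i)) = t (m + i) := fun i hi => by
          have := hκ1 o ho1 ho2 (m + i) (by omega)
          rw [ho2, show o + (m + i) = o + m + i by ring] at this
          simpa using this
        have e3 : t r = false := by
          have := e1 r le_rfl
          rw [show o + m + r = o + κ o by omega, hN] at this
          simpa using this.symm
        have e4 : t (m + r) = true := by rw [← hr]; exact hκ3 o ho1 ho2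
        have e5 : t m = false := by
          have h6 := e1 0 (by omega)
          have h7 := e2 0 (by omega)
          rw [h6, h.1] at h7
          exact h7.symm
        rcases h.2.2 m hm with hkp | hper
        · obtain ⟨k, hk0', hk1, hk2, hk3, hk4⟩ := kp_first h.1 hkp
          rw [e5] at hk1 hk2
          simp only [Bool.xor_false] at hk1 hk2
          have e6 : Dif t m r := by
            unfold Dif
            rw [e4, e5, e3]; decide
          have e7 := hk4 r e6
          rcases Nat.lt_or_ge k r with h8 | h8
          · have h9 := e1 k h8.le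
            have h10 := e2 k h8
            rw [h9, hk2, hk3] at h10
            exact absurd h10 (by decide)
          · obtain rfl : k = r := by omega
            rw [e3] at hk3
            exact absurd hk3 (by decide)
        · have := hper.2 r
          rw [e4, e3] at this
          exact absurd this (by decide)
    · unfold Dif
      rw [hκ2 o' ho1' ho3', hκ3 o' ho1' ho3']; decide

/-- the periodic sequence of a good prefix is weakly admissible -/
lemma WA.periodic_weak {t : ℕ → Bool} (h : WA t) {M : ℕ} (hM : 1 ≤ M) (hg : Good t M) (m : ℕ) :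
    Kp (fun i => t (i % M)) (sh m (fun i => t (i % M))) ∨
      ∀ i, xor ((fun i => t (i % M)) (m + i)) ((fun i => t (i % M)) m) = (fun i => t (i % M)) i := by
  -- reduction to `m < M`
  have hred : ∀ i, (m + i) % M = (m % M + i) % M := fun i => by rw [Nat.mod_add_mod]
  have hred0 : m % M % M = m % M := Nat.mod_mod _ _
  suffices hs : ∀ o, o < M → (Kp (fun i => t (i % M)) (sh o (fun i => t (i % M))) ∨
      ∀ i, xor ((fun i => t (i % M)) (o + i)) ((fun i => t (i % M)) o) = (fun i => t (i % M)) i) by
    have h1 := hs (m % M) (Nat.mod_lt _ hM)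
    have e : sh m (fun i => t (i % M)) = sh (m % M) (fun i => t (i % M)) := by
      funext i
      simp only [sh_apply]
      rw [hred]
    rcases h1 with h1 | h1
    · left; rw [e]; exact h1
    · right
      intro i
      have := h1 i
      simp only [hred0] at this ⊢
      rw [hred]; exact this
  intro o ho
  have hmod : ∀ i, i < M → i % M = i := fun i hi => Nat.mod_eq_of_lt hi
  rcases Nat.eq_zero_or_pos o with rfl | ho1
  · right
    intro i
    simp [h.1]
  rcases h.2.2 o ho1 with hkp | hper
  · obtain ⟨k, hk0, hk1, hk2, hk3, hk4⟩ := kp_first h.1 hkp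
    rcases Nat.lt_or_ge (o + k) M with h5 | h5
    · left
      refine ⟨k, fun i hi => ?_, ?_, ?_⟩
      · simp only [sh_apply, add_zero]
        rw [hmod _ (by omega), hmod _ ho, hmod _ (by omega)]
        exact hk1 i hi
      · simp only [sh_apply, add_zero]
        rw [hmod _ (by omega), hmod _ ho]
        exact hk2
      · show t (k % M) = true
        rw [hmod _ (by omega)]; exact hk3
    · obtain ⟨r, hr⟩ : ∃ r, M = o + r := ⟨M - o, by omega⟩
      have hr1 : 1 ≤ r := by omega
      have hrk : r ≤ k := by omega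
      have htM : t (o + r) = true := by rw [← hr]; exact hg.1
      cases hto : t o
      · rw [hto] at hk1 hk2
        simp only [Bool.xor_false] at hk1 hk2
        have htr : t r = true := by
          rcases Nat.lt_or_ge r k with h6 | h6
          · rw [← hk1 r h6]; exact htM
          · obtain rfl : r = k := by omega
            exact hk3
        left
        refine ⟨r, fun i hi => ?_, ?_, ?_⟩
        · simp only [sh_apply, add_zero]
          rw [hmod _ (by omega), hmod _ ho, hmod _ (by omega), hto, Bool.xor_false]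
          exact hk1 i (by omega)
        · simp only [sh_apply, add_zero]
          rw [← hr, Nat.mod_self, hmod _ ho, hto, h.1]; rfl
        · show t (r % M) = true
          rw [hmod _ (by omega)]; exact htr
      · obtain ⟨j0, hj0, hj0'⟩ := hg.2 o ho1 ho hto
        have hkr : k = r := by
          have := hk4 j0 hj0'
          omega
        subst hkr
        rw [hto] at hk1 hk2
        simp only [Bool.xor_true] at hk1 hk2
        obtain ⟨k', hk0', hk1', hk2', hk3', hk4'⟩ := kp_first h.1 (h.kp hr1 hk3)
        rw [hk3] at hk1' hk2'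
        simp only [Bool.xor_true] at hk1' hk2'
        have hMj : ∀ j, j < o → (o + (k + j)) % M = j := fun j hj => by
          rw [← add_assoc, ← hr, Nat.add_mod_left, hmod _ (by omega)]
        rcases Nat.lt_or_ge (k + k') M with h6 | h6
        · left
          refine ⟨k + k', fun i hi => ?_, ?_, ?_⟩
          · simp only [sh_apply, add_zero]
            rw [hmod _ ho, hto, Bool.xor_true, hmod i (by omega)]
            rcases Nat.lt_or_ge i k with h7 | h7
            · rw [hmod _ (by omega)]; exact hk1 i h7
            · obtain ⟨i', rfl⟩ : ∃ i', i = k + i' := ⟨i - k, by omega⟩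
              rw [hMj i' (by omega), ← hk1' i' (by omega)]
              simp
          · simp only [sh_apply, add_zero]
            rw [hmod _ ho, hto, hMj k' (by omega), hk3']; rfl
          · show t ((k + k') % M) = true
            rw [hmod _ h6]
            simpa using hk2'
        · right
          -- equality on one period
          have hper : ∀ j, j < M → (!t ((o + j) % M)) = t j := by
            intro j hj
            rcases Nat.lt_trichotomy j k with h7 | h7 | h7
            · rw [hmod _ (by omega)]; exact hk1 j h7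
            · subst h7
              rw [← hr, Nat.mod_self, h.1, hk3]; rfl
            · obtain ⟨i', rfl⟩ : ∃ i', j = k + i' := ⟨j - k, by omega⟩
              rw [hMj i' (by omega), ← hk1' i' (by omega)]
              simp
          intro i
          simp only
          rw [hmod _ ho, hto, Bool.xor_true, ← hper (i % M) (Nat.mod_lt _ hM), Nat.add_mod_mod]
  · -- the tail at `o` is `t`
    obtain ⟨r, hr⟩ : ∃ r, M = o + r := ⟨M - o, by omega⟩
    have hr1 : 1 ≤ r := by omega
    have htr : t r = true := by rw [← hper.2 r, ← hr]; exact hg.1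
    left
    refine ⟨r, fun i hi => ?_, ?_, ?_⟩
    · simp only [sh_apply, add_zero]
      rw [hmod _ (by omega), hmod _ ho, hmod _ (by omega), hper.1, Bool.xor_false]
      exact hper.2 i
    · simp only [sh_apply, add_zero]
      rw [← hr, Nat.mod_self, hmod _ ho, hper.1, h.1]; rfl
    · show t (r % M) = true
      rw [hmod _ (by omega)]; exact htr

/-- from numerical conditions at one place to `Kp` -/
lemma kp_of_num2 {q : ℝ} (hq : 1 < q) {t : ℕ → Bool} (ht : t 0 = false) (h1 : P q (sh 1 t) = 1)
    (hW : WU q (sh 1 t)) {c : ℕ → Bool} (h0 : c 0 = false → P q (sh 1 c) < 1)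
    (h1' : c 0 = true → 1 / (q - 1) - 1 < P q (sh 1 c)) : Kp t c := by
  have aux : ∀ c : ℕ → Bool, c 0 = false → P q (sh 1 c) < 1 → Kp t c := by
    intro c hc hlt
    have h3 : Lt (sh 1 c) (sh 1 t) := by
      rcases trich (sh 1 c) (sh 1 t) with h | h | h
      · rw [h, h1] at hlt; exact absurd hlt (lt_irrefl _)
      · exact h
      · obtain ⟨p, hp1, hp2, hp3⟩ := h
        have := wlt_of_left hq hp1 hp2 hp3 ((hW p).1 hp2)
        linarith
    obtain ⟨p, hp1, hp2, hp3⟩ := h3
    refine ⟨p + 1, fun i hi => ?_, ?_, ?_⟩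
    · rcases Nat.eq_zero_or_pos i with rfl | hi0
      · simp [ht]
      · obtain ⟨i', rfl⟩ : ∃ i', i = i' + 1 := ⟨i - 1, by omega⟩
        have := hp1 i' (by omega)
        simp only [sh_apply] at this
        rw [hc, Bool.xor_false, add_comm i' 1, this]
    · rw [hc, Bool.xor_false, add_comm p 1]; exact hp2
    · rw [add_comm p 1]; exact hp3
  cases hc : c 0
  · exact aux c hc (h0 hc)
  · have h2 := aux (fun i => !c i) (by simp [hc]) (by
      have e : sh 1 (fun i => !c i) = fun i => !(sh 1 c i) := rfl
      rw [e, P_compl hq]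
      have := h1' hc
      linarith)
    have := h2.compl
    simpa using this

/-- **a point with a weak expansion with a tail of value `1`, and without the dual equalities, has
a smaller univoque base** -/
theorem lower_base {Q : ℝ} (hQ1 : 1 < Q) (hQ2 : Q < 2) (D : ℕ → Bool) (hD : WU Q D)
    (hD1 : ∀ n, D n = true → 1 / (Q - 1) - 1 < P Q (sh (n + 1) D)) (hD2 : ¬ Un Q D) :
    ∃ q ∈ Ux (P Q D), q < Q := by
  classical
  have hex : ∃ n, D n = false ∧ P Q (sh (n + 1) D) = 1 := by
    by_contra hc
    push Not at hc
    exact hD2 fun n => ⟨fun hn => lt_of_le_of_ne ((hD n).1 hn) (hc n hn), hD1 n⟩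
  obtain ⟨hn1, hn2⟩ := Nat.find_spec hex
  have hmin : ∀ j < Nat.find hex, D j = false → P Q (sh (j + 1) D) < 1 := fun j hj hj2 => by
    refine lt_of_le_of_ne ((hD j).1 hj2) fun h => ?_
    exact Nat.find_min hex hj ⟨hj2, h⟩
  set n := Nat.find hex with hn
  obtain ⟨t, ht⟩ : ∃ t : ℕ → Bool, t = sh n D := ⟨_, rfl⟩
  have hDt : ∀ i, D (n + i) = t i := fun i => by rw [ht, sh_apply]
  have ht0 : t 0 = false := by rw [ht, sh_apply, add_zero]; exact hn1
  have hα : P Q (sh 1 t) = 1 := by rw [ht, sh_sh]; exact hn2
  have hWt : ∀ m, (t m = false → P Q (sh (m + 1) t) ≤ 1) ∧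
      (t m = true → 1 / (Q - 1) - 1 < P Q (sh (m + 1) t)) := by
    intro m
    rw [ht, sh_sh, sh_apply, ← add_assoc]
    exact ⟨(hD (n + m)).1, hD1 (n + m)⟩
  have hW1 : WU Q (sh 1 t) := by
    intro m
    have h1 := hWt (1 + m)
    rw [sh_sh, sh_apply, ← add_assoc]
    exact ⟨h1.1, fun h => (h1.2 h).le⟩
  have hS1 : ∀ p, sh 1 t p = true → 1 / (Q - 1) - 1 < P Q (sh (p + 1) (sh 1 t)) := by
    intro p hp
    have h1 := (hWt (1 + p)).2 hp
    rw [sh_sh, ← add_assoc]
    exact h1
  have ht1 : t 1 = true := by
    by_contra hc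
    have hc' : t 1 = false := by simpa using hc
    have h1 := (hWt 1).1 hc'
    have h2 := P_succ hQ1 (sh 1 t)
    rw [hα, sh_sh, sh_apply, add_zero, hc', dg_false, zero_add] at h2
    have h3 : Q = P Q (sh (1 + 1) t) := by
      rw [eq_div_iff (by linarith)] at h2
      linarith
    linarith
  have hWA : WA t := by
    refine ⟨ht0, ht1, fun m hm => ?_⟩
    by_cases hlt : t m = false → P Q (sh (m + 1) t) < 1
    · left
      refine kp_of_num2 hQ1 ht0 hα hW1 (fun h => ?_) (fun h => ?_)
      · rw [sh_sh]
        exact hlt (by simpa using h)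
      · rw [sh_sh]
        exact (hWt m).2 (by simpa using h)
    · right
      push Not at hlt
      obtain ⟨htm, hge⟩ := hlt
      have heq : P Q (sh (m + 1) t) = 1 := le_antisymm ((hWt m).1 htm) hge
      have hseq : sh (m + 1) t = sh 1 t := by
        rcases trich (sh (m + 1) t) (sh 1 t) with h | h | h
        · exact h
        · obtain ⟨p, hp1, hp2, hp3⟩ := h
          have := lt_of_right hQ1 hp1 hp2 hp3 (hS1 p hp3)
          linarith
        · obtain ⟨p, hp1, hp2, hp3⟩ := h
          have h5 := (hWt (m + 1 + p)).2 hp3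
          have := lt_of_right hQ1 hp1 hp2 hp3 (by rw [sh_sh, ← add_assoc]; exact h5)
          linarith
      refine ⟨htm, fun i => ?_⟩
      rcases Nat.eq_zero_or_pos i with rfl | hi
      · rw [add_zero, htm, ht0]
      · obtain ⟨i', rfl⟩ : ∃ i', i = i' + 1 := ⟨i - 1, by omega⟩
        have := congrFun hseq i'
        simp only [sh_apply] at this
        rw [show m + (i' + 1) = m + 1 + i' by ring, this, add_comm 1 i']
  -- witnesses for the positions before `n`
  have hkp : ∀ j < n, Kp t (sh j D) := fun j hj => by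
    refine kp_of_num2 hQ1 ht0 hα hW1 (fun h => ?_) (fun h => ?_)
    · rw [sh_sh]; exact hmin j hj (by simpa using h)
    · rw [sh_sh]; exact hD1 j (by simpa using h)
  have hbound : ∃ B, ∀ j < n, ∃ k < B, (∀ i < k, xor (sh j D i) (sh j D 0) = t i) ∧
      xor (sh j D k) (sh j D 0) = false ∧ t k = true := by
    choose! k hk using hkp
    refine ⟨(Finset.range n).sup k + 1, fun j hj => ⟨k j, ?_, hk j hj⟩⟩
    have := Finset.le_sup (f := k) (Finset.mem_range.2 hj)
    omega
  obtain ⟨B, hB⟩ := hbound
  -- the intermediate base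
  obtain ⟨q1, hq11, hq1Q⟩ := exists_between hQ1
  have hδ : 1 < P q1 (sh 1 t) := by
    rw [← hα]
    exact P_strict hq11 hq1Q _ (n := 0) ht1
  obtain ⟨B', hB'⟩ : ∃ B : ℕ, ∀ n, B ≤ n → 1 / (q1 - 1) / q1 ^ n < P q1 (sh 1 t) - 1 := by
    have hlim : Filter.Tendsto (fun n : ℕ => 1 / (q1 - 1) / q1 ^ n) Filter.atTop (nhds 0) := by
      have h5 : Filter.Tendsto (fun n : ℕ => (1 / (q1 - 1)) * (1 / q1) ^ n) Filter.atTop
          (nhds ((1 / (q1 - 1)) * 0)) :=
        (tendsto_pow_atTop_nhds_zero_of_lt_one (by positivity)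
          (by rw [div_lt_one (by linarith)]; exact hq11)).const_mul _
      rw [mul_zero] at h5
      refine h5.congr fun n => ?_
      rw [one_div_pow, mul_one_div]
    have := hlim.eventually (gt_mem_nhds (show 0 < P q1 (sh 1 t) - 1 by linarith))
    rw [Filter.eventually_atTop] at this
    exact this
  obtain ⟨M, hM1, hM2⟩ := hWA.exists_good (max (B' + 1) (max B 2))
  have e1 : B' + 1 ≤ M := le_trans (le_max_left _ _) hM1
  have e2 : B ≤ M := le_trans (le_trans (le_max_left _ _) (le_max_right _ _)) hM1
  have e3 : 2 ≤ M := le_trans (le_trans (le_max_right _ _) (le_max_right _ _)) hM1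
  -- the periodic sequence
  set t' : ℕ → Bool := fun i => t (i % M) with ht'
  have ht'0 : t' 0 = false := by simp [ht', ht0]
  have ht's : ∀ j, j < M → t' j = t j := fun j hj => by
    show t (j % M) = t j
    rw [Nat.mod_eq_of_lt hj]
  have ht'M : t' M = false := by
    show t (M % M) = false
    rw [Nat.mod_self]; exact ht0
  have hlow : P Q (sh 1 t') < 1 := by
    rw [← hα]
    have hM3 : sh 1 t (M - 1) = true := by
      rw [sh_apply, show 1 + (M - 1) = M by omega]; exact hM2.1
    refine lt_of_right hQ1 (p := M - 1) (fun i hi => ?_) ?_ hM3 (hS1 _ hM3)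
    · rw [sh_apply, sh_apply, ht's _ (by omega)]
    · rw [sh_apply, show 1 + (M - 1) = M by omega]; exact ht'M
  have hup : 1 < P q1 (sh 1 t') := by
    have h1 : P q1 (sh 1 t) ≤ P q1 (sh 1 t') + 1 / (q1 - 1) / q1 ^ (M - 1) := by
      refine P_agree hq11 fun i hi => ?_
      rw [sh_apply, sh_apply, ht's _ (by omega)]
    have h2 := hB' (M - 1) (by omega)
    linarith
  obtain ⟨qm, h1, h2, h3⟩ := P_ivt hq11 hq1Q.le (sh 1 t') hlow hup
  have hqm1 : 1 < qm := by linarith
  -- the approximating sequence
  set E := glue n D t' with hE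
  set F := glue n D (cons true (fun _ => false)) with hF
  have hEF : ∀ q, 1 < q → P q E = P q F + (P q (sh 1 t') - 1) / q ^ (n + 1) := by
    intro q hq
    have h4 := diff_eq hq (d := F) (e := E) (p := n) (fun i hi => by
      rw [hF, hE, glue_lt _ _ hi, glue_lt _ _ hi])
    rw [hF, hE, sh_glue, sh_glue, P_cons hq, P_zeros, P_succ hq t', ht'0, ← hF, ← hE, dg_true,
      dg_false] at h4
    have hq0 : q ≠ 0 := by linarith
    rw [pow_succ]
    field_simp at h4 ⊢
    linarith
  have hDF : P Q D = P Q F := by
    have h4 := diff_eq hQ1 (d := F) (e := D) (p := n) (fun i hi => by rw [hF, glue_lt _ _ hi])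
    rw [hF, sh_glue, P_cons hQ1, P_zeros, ← ht, P_succ hQ1 t, ht0, hα, ← hF, dg_true,
      dg_false] at h4
    have : (1 + 0 : ℝ) / Q = (0 + 1) / Q := by ring
    rw [this, sub_self, zero_div] at h4
    linarith
  have hFn : F n = true := by rw [hF]; simp [glue]
  have hE1 : P Q E < P Q D := by
    rw [hEF Q hQ1, hDF]
    have : (P Q (sh 1 t') - 1) / Q ^ (n + 1) < 0 :=
      div_neg_of_neg_of_pos (by linarith) (by positivity)
    linarith
  have hE2 : P Q D < P qm E := by
    rw [hEF qm hqm1, hDF, h3, sub_self, zero_div, add_zero]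
    exact P_strict hqm1 h2 F hFn
  obtain ⟨q, h5, h6, h7⟩ := P_ivt hqm1 h2.le E hE1 hE2
  have hq1 : 1 < q := by linarith
  refine ⟨q, mem_Ux.2 ⟨hq1, by linarith, E, h7, ?_⟩, h6⟩
  refine lexnum2 hq1 ht'0 ?_ fun m => ?_
  · rw [← h3]
    refine P_strict hqm1 h5 _ (n := 0) ?_
    rw [sh_apply, ht's _ (by omega)]
    exact ht1
  · rcases Nat.lt_or_ge m n with h8 | h8
    · left
      obtain ⟨k, hkB, hk1, hk2, hk3⟩ := hB m h8
      have hED : ∀ i, i < n + M → E i = D i := by
        intro i hi
        rcases Nat.lt_or_ge i n with h9 | h9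
        · rw [hE, glue_lt _ _ h9]
        · obtain ⟨i', rfl⟩ : ∃ i', i = n + i' := ⟨i - n, by omega⟩
          have := congrFun (sh_glue n D t') i'
          rw [sh_apply, ← hE] at this
          rw [this, hDt, ht's _ (by omega)]
      simp only [sh_apply, add_zero] at hk1 hk2
      refine ⟨k, fun i hi => ?_, ?_, ?_⟩
      · simp only [sh_apply, add_zero]
        rw [hED _ (by omega), hED _ (by omega), ht's _ (by omega)]
        exact hk1 i hi
      · simp only [sh_apply, add_zero]
        rw [hED _ (by omega), hED _ (by omega)]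
        exact hk2
      · rw [ht's _ (by omega)]; exact hk3
    · obtain ⟨m', rfl⟩ : ∃ m', m = n + m' := ⟨m - n, by omega⟩
      have hEt : ∀ i, E (n + i) = t' i := fun i => by
        have := congrFun (sh_glue n D t') i
        rw [sh_apply, ← hE] at this
        exact this
      have h9 := hWA.periodic_weak (show 1 ≤ M by omega) hM2 m'
      have e : sh (n + m') E = sh m' t' := by
        funext i
        rw [sh_apply, sh_apply, add_assoc, hEt]
      rcases h9 with h9 | h9
      · left
        rw [e]; exact h9
      · right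
        intro i
        have := h9 i
        rw [add_assoc, hEt, hEt]
        exact this

end Pool.Agent.U133.UB
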