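import Pool.Agent.R341.Uni11

set_option autoImplicit false

/-!
# Upper semicontinuity from the right of the smallest univoque base
-/

namespace Pool.Agent.U133.UB

open Pool.Agent.R341.Uni Filter Topology

/-- replacing the tail after the position `n` by a larger one -/
lemma glue_un {q : ℝ} (hq : 1 < q) {s T : ℕ → Bool} (hs : Un q s) (hT : Un q T) {n : ℕ}
    (h0 : s n = false → P q T < 1) (h1 : P q (sh (n + 1) s) < P q T)
    (h2 : ∀ m < n, s m = false →
      P q (sh (m + 1) s) + (P q T - P q (sh (n + 1) s)) < 1) :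
    Un q (glue (n + 1) s T) ∧ P q s < P q (glue (n + 1) s T) := by
  have hag : ∀ i < n + 1, s i = glue (n + 1) s T i := fun i hi => (glue_lt _ _ hi).symm
  have hval : ∀ m ≤ n, P q (sh m (glue (n + 1) s T)) - P q (sh m s) =
      (P q T - P q (sh (n + 1) s)) / q ^ (n + 1 - m) := by
    intro m hm
    have h3 := diff_eq hq (d := sh m s) (e := sh m (glue (n + 1) s T)) (p := n + 1 - m)
      (fun i hi => by rw [sh_apply, sh_apply]; exact hag _ (by omega))
    rw [sh_sh, sh_sh, show m + (n + 1 - m) = n + 1 by omega, sh_glue] at h3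
    exact h3
  have hpos : 0 < P q T - P q (sh (n + 1) s) := by linarith
  constructor
  · intro m
    rcases Nat.lt_trichotomy m n with h | h | h
    · have h3 := hval (m + 1) (by omega)
      have h4 : 0 < (P q T - P q (sh (n + 1) s)) / q ^ (n + 1 - (m + 1)) :=
        div_pos hpos (by positivity)
      have h5 : (P q T - P q (sh (n + 1) s)) / q ^ (n + 1 - (m + 1)) ≤
          P q T - P q (sh (n + 1) s) :=
        div_le_self hpos.le (one_le_pow₀ hq.le)
      rw [← hag m (by omega)]
      constructor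
      · intro hm
        have := h2 m h hm
        linarith
      · intro hm
        have := (hs m).2 hm
        linarith
    · subst h
      rw [← hag m (by omega), sh_glue]
      exact ⟨h0, fun hm => lt_trans ((hs m).2 hm) h1⟩
    · obtain ⟨j, rfl⟩ : ∃ j, m = n + 1 + j := ⟨m - (n + 1), by omega⟩
      have e1 : glue (n + 1) s T (n + 1 + j) = T j := by
        have := congrFun (sh_glue (n + 1) s T) j
        rwa [sh_apply] at this
      have e2 : sh (n + 1 + j + 1) (glue (n + 1) s T) = sh (j + 1) T := by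
        funext i
        have := congrFun (sh_glue (n + 1) s T) (j + 1 + i)
        rw [sh_apply] at this
        rw [sh_apply, sh_apply, ← this]
        congr 1
        ring
      rw [e1, e2]
      exact hT j
  · have h3 := hval 0 (Nat.zero_le _)
    rw [sh_zero, sh_zero] at h3
    have h4 : 0 < (P q T - P q (sh (n + 1) s)) / q ^ (n + 1 - 0) :=
      div_pos hpos (by positivity)
    linarith

/-- a unique expansion is approximated from above, or it is unique in a smaller base -/
lemma approx_above {q : ℝ} (hq : 1 < q) {s : ℕ → Bool} (hs : Un q s) :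
    (∃ q', 1 < q' ∧ q' < q ∧ Un q' s) ∨
      ∀ N, ∃ s', Un q s' ∧ (∀ i < N, s' i = s i) ∧ P q s < P q s' := by
  classical
  by_cases hA : ∀ ε : ℝ, 0 < ε → ∃ n, s n = false ∧ 1 - ε < P q (sh (n + 1) s)
  · right
    intro N
    -- a bound for the positions before `N`
    obtain ⟨M0, hM0, hM0'⟩ : ∃ M0 : ℝ, M0 < 1 ∧ ∀ m < N, s m = false → P q (sh (m + 1) s) ≤ M0 := by
      induction N with
      | zero => exact ⟨0, by norm_num, fun m hm => absurd hm (by omega)⟩
      | succ N ih =>
        obtain ⟨M0, h1, h2⟩ := ih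
        by_cases h : s N = false
        · refine ⟨max M0 (P q (sh (N + 1) s)), max_lt h1 ((hs N).1 h), fun m hm hm0 => ?_⟩
          rcases Nat.lt_or_ge m N with h3 | h3
          · exact (h2 m h3 hm0).trans (le_max_left _ _)
          · rw [show m = N by omega]; exact le_max_right _ _
        · refine ⟨M0, h1, fun m hm hm0 => h2 m ?_ hm0⟩
          rcases Nat.lt_or_ge m N with h3 | h3
          · exact h3
          · rw [show m = N by omega] at hm0
            exact absurd hm0 h
    have hex : ∃ n, s n = false ∧ M0 < P q (sh (n + 1) s) := by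
      obtain ⟨n, h1, h2⟩ := hA (1 - M0) (by linarith)
      exact ⟨n, h1, by linarith⟩
    obtain ⟨hn1, hn2⟩ := Nat.find_spec hex
    have hmin : ∀ m < Nat.find hex, s m = false → P q (sh (m + 1) s) ≤ M0 := by
      intro m hm hm0
      by_contra hc
      push Not at hc
      exact Nat.find_min hex hm ⟨hm0, hc⟩
    have hNn : N ≤ Nat.find hex := by
      by_contra hc
      push Not at hc
      have := hM0' _ hc hn1
      linarith
    generalize Nat.find hex = n at hn1 hn2 hmin hNn
    obtain ⟨n', hn'1, hn'2⟩ := hA (1 - P q (sh (n + 1) s)) (by have := (hs n).1 hn1; linarith)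
    have hT := (hs n').1 hn'1
    obtain ⟨g1, g2⟩ := glue_un hq hs (hs.sh (n' + 1)) (n := n) (fun _ => hT) (by linarith)
      (fun m hm hm0 => by have := hmin m hm hm0; linarith)
    exact ⟨_, g1, fun i hi => glue_lt _ _ (by omega), g2⟩
  push Not at hA
  obtain ⟨η, hη, hηs⟩ := hA
  by_cases hB : ∀ ε : ℝ, 0 < ε → ∃ n, s n = true ∧ P q (sh (n + 1) s) < 1 / (q - 1) - 1 + ε
  · right
    intro N
    obtain ⟨M0, hM0, hM0'⟩ : ∃ M0 : ℝ, 1 / (q - 1) - 1 < M0 ∧
        ∀ m < N, s m = true → M0 ≤ P q (sh (m + 1) s) := by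
      induction N with
      | zero => exact ⟨1 / (q - 1), by linarith, fun m hm => absurd hm (by omega)⟩
      | succ N ih =>
        obtain ⟨M0, h1, h2⟩ := ih
        by_cases h : s N = true
        · refine ⟨min M0 (P q (sh (N + 1) s)), lt_min h1 ((hs N).2 h), fun m hm hm0 => ?_⟩
          rcases Nat.lt_or_ge m N with h3 | h3
          · exact (min_le_left _ _).trans (h2 m h3 hm0)
          · rw [show m = N by omega]; exact min_le_right _ _
        · refine ⟨M0, h1, fun m hm hm0 => h2 m ?_ hm0⟩
          rcases Nat.lt_or_ge m N with h3 | h3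
          · exact h3
          · rw [show m = N by omega] at hm0
            exact absurd hm0 h
    obtain ⟨n1, h1, h2⟩ := hB η hη
    have h3 := (hs n1).2 h1
    obtain ⟨n, hn1, hn2⟩ := hB (min M0 (P q (sh (n1 + 1) s)) - (1 / (q - 1) - 1)) (by
      have := lt_min hM0 h3
      linarith)
    have hn3 : P q (sh (n + 1) s) < M0 := by
      have := min_le_left M0 (P q (sh (n1 + 1) s)); linarith
    have hn4 : P q (sh (n + 1) s) < P q (sh (n1 + 1) s) := by
      have := min_le_right M0 (P q (sh (n1 + 1) s)); linarith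
    have hNn : N ≤ n := by
      by_contra hc
      push Not at hc
      have := hM0' n hc hn1
      linarith
    have h5 := (hs n).2 hn1
    obtain ⟨g1, g2⟩ := glue_un hq hs (hs.sh (n1 + 1)) (n := n)
      (fun h => absurd (hn1.symm.trans h) (by decide)) hn4
      (fun m hm hm0 => by have := hηs m hm0; linarith)
    exact ⟨_, g1, fun i hi => glue_lt _ _ (by omega), g2⟩
  push Not at hB
  obtain ⟨ε, hε, hεs⟩ := hB
  left
  -- the expansion is unique in a smaller base
  have hq1 : 0 < q - 1 := by linarith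
  have hcont : Tendsto (fun k : ℕ => 1 / ((q - (q - 1) / ((k : ℝ) + 2)) - 1)) atTop
      (𝓝 (1 / (q - 1))) := by
    have h1 : Tendsto (fun k : ℕ => (q - 1) / ((k : ℝ) + 2)) atTop (𝓝 0) := by
      refine Tendsto.div_atTop tendsto_const_nhds ?_
      exact tendsto_atTop_add_const_right _ _ tendsto_natCast_atTop_atTop
    have h2 : Tendsto (fun k : ℕ => (q - (q - 1) / ((k : ℝ) + 2)) - 1) atTop
        (𝓝 (q - 0 - 1)) := (tendsto_const_nhds.sub h1).sub_const 1
    rw [sub_zero] at h2
    exact tendsto_const_nhds.div h2 hq1.ne'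
  have hmin : 0 < min η ε := lt_min hη hε
  have hev := hcont.eventually (gt_mem_nhds (show 1 / (q - 1) < 1 / (q - 1) + min η ε by linarith))
  obtain ⟨k, hk⟩ := hev.exists
  set q' := q - (q - 1) / ((k : ℝ) + 2) with hq'
  have hk0 : (0 : ℝ) ≤ k := Nat.cast_nonneg k
  have h1 : 1 < q' := by
    have : (q - 1) / ((k : ℝ) + 2) < q - 1 := by
      rw [div_lt_iff₀ (by positivity)]
      nlinarith
    rw [hq']; linarith
  have h2 : q' < q := by
    have : 0 < (q - 1) / ((k : ℝ) + 2) := div_pos hq1 (by positivity)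
    rw [hq']; linarith
  refine ⟨q', h1, h2, fun n => ⟨fun hn => ?_, fun hn => ?_⟩⟩
  · have h3 := P_lip h1 h2.le (sh (n + 1) s)
    have h4 := hηs n hn
    have h5 := min_le_left η ε
    linarith
  · have h3 := P_anti h1 h2.le (sh (n + 1) s)
    have h4 := hεs n hn
    have h5 := min_le_right η ε
    linarith

/-- **upper semicontinuity from the right** -/
theorem right_usc {q Q x : ℝ} (hx : 0 < x) (hqx : q ∈ Ux x) (hqQ : q < Q) (hQ2 : Q ≤ 2) :
    ∃ y0, x < y0 ∧ ∀ y, x < y → y < y0 → ∃ q' ∈ Ux y, q' < Q := by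
  obtain ⟨hq1, hq2, s, hs, hU⟩ := mem_Ux.1 hqx
  obtain ⟨m, hm⟩ : ∃ n, s n = true := by
    by_contra hc
    push Not at hc
    have : s = fun _ => false := funext fun m => by simpa using hc m
    rw [this, P_zeros] at hs
    linarith
  rcases approx_above hq1 hU with ⟨q', h1, h2, h3⟩ | h
  · refine ⟨P q' s, by rw [← hs]; exact P_strict h1 h2 s hm, fun y hy1 hy2 => ?_⟩
    obtain ⟨q'', h4, h5, h6⟩ := P_ivt h1 h2.le s (by rw [hs]; exact hy1) hy2
    exact ⟨q'', mem_Ux.2 ⟨by linarith, by linarith, s, h6, h3.mono h1 h4.le⟩, by linarith⟩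
  · obtain ⟨Q', hQ'1, hQ'2⟩ := exists_between hqQ
    have hQ'0 : 1 < Q' := by linarith
    have h1 : P Q' s < x := by rw [← hs]; exact P_strict hq1 hQ'1 s hm
    have hlim : Tendsto (fun n : ℕ => 1 / (Q' - 1) / Q' ^ n) atTop (𝓝 0) := by
      have h5 : Tendsto (fun n : ℕ => (1 / (Q' - 1)) * (1 / Q') ^ n) atTop
          (𝓝 ((1 / (Q' - 1)) * 0)) :=
        (tendsto_pow_atTop_nhds_zero_of_lt_one (by positivity)
          (by rw [div_lt_one (by linarith)]; exact hQ'0)).const_mul _
      rw [mul_zero] at h5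
      refine h5.congr fun n => ?_
      rw [one_div_pow, mul_one_div]
    obtain ⟨N, hN⟩ := (hlim.eventually (gt_mem_nhds (show 0 < x - P Q' s by linarith))).exists
    obtain ⟨s', h2, h3, h4⟩ := h N
    have h5 := P_agree hQ'0 h3
    rw [hs] at h4
    refine ⟨P q s', h4, fun y hy1 hy2 => ?_⟩
    obtain ⟨q'', h6, h7, h8⟩ := P_ivt hq1 hQ'1.le s' (by linarith) hy2
    exact ⟨q'', mem_Ux.2 ⟨by linarith, by linarith, s', h8, h2.mono hq1 h6.le⟩, by linarith⟩

end Pool.Agent.U133.UB
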